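import Pool.Agent.Helper56.C75.SE
import Pool.Agent.Helper21.TM.MT

/-!
MP_c75db0, plan W: THE TEST OF START AND END OF A CELL with the packed domination tests
(`helper56`; the former test is `seK0`).
-/

set_option autoImplicit false
noncomputable section
namespace Pool.Agent.Helper91.TMK.SW

open Matrix
open Pool.Agent.Helper90.KMT (PT)
open Pool.Agent.Helper86.C75 (Z)
open Pool.Agent.Helper86.CX (andB)
open Pool.Agent.Helper86.CT (N3 KM A3)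
open Pool.Agent.Helper17.N9 (Kf KfM)
open Pool.Agent.Helper62.TVM (C3)
open Pool.Agent.Helper12.NKT (CovD siC)
open Pool.Agent.Helper51.FR (andB_t' cbd cn_ok doU_hat doY_hat)
open Pool.Agent.Helper56.SE (dK nU dK_ok d4 dL)
open Pool.Agent.Helper82.TST (H6 uv)
open Pool.Agent.Helper91.TM (TP)
open Pool.Agent.Helper91.TMK.TST
open Pool.Agent.Helper6.MONO (V3)
open Pool.Agent.Helper6.MONO.W2 (NZ rfJ brJ Sy syi SyOk TyOk)
open Pool.Agent.Helper6.MONO.W2.TY (PtS leF sc cmx siC_sc sc_b allC_sound a0g)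
open Pool.Agent.Helper21.SW (cK M4 SE indT ind_ok inL_ok allF_ok)
open Pool.Agent.Helper21.TC (KV)

section

variable {γ : Type}

/-- THE TEST: `ca`, `ce` the codes of `a0` and of its inverse -/
def seQ (M : Mn TP) (G : Nat → Nat → H6 → KM TP → KM TP → Bool) (T : TK TP Kf γ) (C : Cel Kf)
    (E : SE) (ca ce : Nat) : Bool :=
  andB (indT E) (andB (vbV M A3 (C.f M).v) (andB (cvT C E.d)
    (andB (seV M G C E (T.km (C.fo (leF C.D ca))))
      (andB (vaU M G C E.y (T.km (C.fo (leF C.D ce)))) (dL C E E.d)))))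

/-- THE TEST OF START AND END -/
def seK (M : Mn TP) (G : Nat → Nat → H6 → KM TP → KM TP → Bool) (T : TK TP Kf γ) (C : Cel Kf)
    (E : SE) : Bool :=
  seQ M G T C E (sc0 C.D.gb) (siC C.D.p (sc0 C.D.gb))

variable {lf : Mch TP} {lq : Mch (N3 TP)} {M : Mn TP}
  {G : Nat → Nat → H6 → KM TP → KM TP → Bool} {T : TK TP Kf γ} {C : Cel Kf}
  {q r : ℕ} {x : ℝ} {t : ℕ → ℝ}

theorem dL_ok {E : SE} : ∀ {l : List (ℕ × M4)}, dL C E l = true → ∀ e ∈ l,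
    d4 E e.2 (C.fo e.1) = true := by
  intro l
  induction l with
  | nil => intro _ e he; cases he
  | cons a l ih =>
    intro h e he
    obtain ⟨h1, h2⟩ := andB_t' h
    rcases List.mem_cons.1 he with rfl | he
    · exact h1
    · exact ih h2 e he

theorem d4_ok (hP : PT 3 t) {v : V3} (h2 : brJ 1 v v = 2)
    (hb : ∀ y : V3, ‖(rfJ 1 v).mulVec y‖ ≤ 193 * ‖y‖) {E : SE} {m : M4} {K : Kf}
    (h : d4 E m K = true) (y : V3) (hy : y ∈ NZ (cK v (KfM K t))) :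
    (∀ j, ‖y‖ ≤ cbd * ‖brJ 1 ((rfJ 1 v).mulVec (E.U j)) y‖) ∧
      ‖y‖ ≤ cbd * ‖brJ 1 ((rfJ 1 v).mulVec y) (uv E.y)‖ := by
  obtain ⟨d0, h⟩ := andB_t' h
  obtain ⟨d1, h⟩ := andB_t' h
  obtain ⟨d2, d3⟩ := andB_t' h
  have key : ∀ {U : C3} {l : ℕ} {z : Z}, dK (nU U) l z K = true →
      ‖y‖ ≤ cbd * ‖brJ 1 ((rfJ 1 v).mulVec (uv U)) y‖ := fun hd =>
    doU_hat h2 (by norm_num) hb (fun y hy => dK_ok hd hP y hy) y hy
  have e3 : ‖y‖ ≤ cbd * ‖brJ 1 ((rfJ 1 v).mulVec y) (uv E.y)‖ :=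
    doY_hat h2 (by norm_num) hb (fun y hy => dK_ok d3 hP y hy) y hy
  exact ⟨Pool.Agent.Helper21.SW.U_all (P := fun U => ‖y‖ ≤ cbd * ‖brJ 1 ((rfJ 1 v).mulVec U) y‖)
    (key d0) (key d1) (key d2), e3⟩

theorem seQ_ok (hT : TKL lf lq KV T) (hG : GeL 3 lf G) (hA : AOK 3 lf M.A)
    (hB : Pool.Agent.Helper90.KMT.AOK 3 Pool.Agent.Helper21.SW.lf3 A3)
    (hV : CvtL 3 lf Pool.Agent.Helper21.SW.lf3 M.V) (hP : PT 3 t) {v : V3} (h2 : brJ 1 v v = 2)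
    (hv : TW 3 lf t v (C.f M).v) {E : SE} {a0 : Sy} {ca ce : ℕ} (ha : sc a0 = ca)
    (he : sc (syi C.D.p a0) = ce) (h : seQ M G T C E ca ce = true) :
    PtS C.D v (fun i => cK v (KV (C.fo i) t)) a0 E.U (uv E.y) cbd := by
  obtain ⟨_, h⟩ := andB_t' h
  obtain ⟨hb, h⟩ := andB_t' h
  obtain ⟨hc, h⟩ := andB_t' h
  obtain ⟨hs, h⟩ := andB_t' h
  obtain ⟨hy, hd⟩ := andB_t' h
  obtain ⟨ho, hb⟩ := andB_t' hb
  have hn := fun y => cn_ok hP (TW_cv hB hV hP hv ho) hb y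
  have dt : ∀ b, TyOk C.D.p (cmx C.D) b →
      ∃ m : M4, d4 E m (C.fo (leF C.D (Pool.Agent.Helper6.MONO.W2.TY.tc b))) = true := by
    intro b hb'
    obtain ⟨k1, k2⟩ := sc_b hb'.1
    have h3 := allC_sound hc (sc b.1) k1 (by omega)
    have h4 := allF_ok h3 b.2 hb'.2
    have e : Nat.add (sc b.1) (Nat.mul 32 b.2) = Pool.Agent.Helper6.MONO.W2.TY.tc b := rfl
    rw [e] at h4
    obtain ⟨m, hm⟩ := inL_ok h4
    exact ⟨m, dL_ok hd (leF C.D (Pool.Agent.Helper6.MONO.W2.TY.tc b), m) hm⟩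
  obtain ⟨s0, s12⟩ := andB_t' hs
  obtain ⟨s1, s2⟩ := andB_t' s12
  have t0 := st_ok hT hG hA hP h2 hv s0
  have t1 := st_ok hT hG hA hP h2 hv s1
  have t2 := st_ok hT hG hA hP h2 hv s2
  have t3 := st_ok hT hG hA hP h2 hv hy
  have t4 : ∀ b, TyOk C.D.p (cmx C.D) b → ∀ y ∈ NZ (cK v (KV (C.fo (leF C.D
      (Pool.Agent.Helper6.MONO.W2.TY.tc b))) t)),
      (∀ j, ‖y‖ ≤ cbd * ‖brJ 1 ((rfJ 1 v).mulVec (E.U j)) y‖) ∧
      ‖y‖ ≤ cbd * ‖brJ 1 ((rfJ 1 v).mulVec y) (uv E.y)‖ := by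
    intro b hb' y hy'
    obtain ⟨m, hm⟩ := dt b hb'
    exact d4_ok hP h2 hn hm y hy'
  rw [← ha] at t0 t1 t2
  rw [← he] at t3
  exact {
    stU := Pool.Agent.Helper21.SW.U_all
      (P := fun U => U ∈ NZ (cK v (KV (C.fo (leF C.D (sc a0))) t))) t0 t1 t2
    doU := fun b hb' y hy' => (t4 b hb' y hy').1
    enY := t3
    doY := fun b hb' y hy' => (t4 b hb' y hy').2 }

/-- **START AND END AT A POINT** -/
theorem PtC.sf (h : PtC lf M C q r x t) (hM : MnL lf M) (hT : TKL lf lq KV T) (hG : GeL 3 lf G)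
    {E : SE} (hb : seK M G T C E = true) :
    PtS C.D (vX C q r x) (fun i => cK (vX C q r x) (KV (C.fo i) t)) (a0g C.D.gb) E.U (uv E.y)
      cbd :=
  seQ_ok hT hG hM.a3 Pool.Agent.Helper21.SW.a3 hM.V h.hP h.two h.fr.v (sc0_a _)
    (by rw [← siC_sc, sc0_a]) hb

theorem seK_ind {E : SE} (hb : seK M G T C E = true) : LinearIndependent ℂ E.U :=
  ind_ok (andB_t' hb).1

end

end Pool.Agent.Helper91.TMK.SW
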