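import Pool.Agent.Helper56.C75.SEK
import Pool.Agent.Helper38.FI.FI

/-!
MP_c75db0, plan W: the packed domination tests of the start are sound.
-/

set_option autoImplicit false
set_option exponentiation.threshold 60000
noncomputable section
namespace Pool.Agent.Helper56.SE

open Pool.Agent.Helper17.N9
open Pool.Agent.Helper86.C75 (Z)
open Pool.Agent.Helper86.CX (andB psd1 M2 Hm)
open Pool.Agent.Helper17.PAK (PDz Bd sc)
open Pool.Agent.Helper90.C75 (Vt avg wtT)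
open Pool.Agent.Helper90.KMO (zv zv_add zv_sub zv_mul zv_opp cz UU)
open Pool.Agent.Helper90.KMT (PT)
open Pool.Agent.Helper90.K9 (pk pz pk_zero pk_succ pk_cast pz_congr pk_congr pz_add pz_sub pz_smul)
open Pool.Agent.Helper62.TVM (C3)
open Pool.Agent.Helper82.TST (uv)
open Pool.Agent.Helper38.FI
open Pool.Agent.Helper6.MONO (V3)
open Pool.Agent.Helper6.MONO.W2 (Mt hr J1 NZ brJ nq)
open Finset

theorem CB_eq : CB = pk (2 ^ 128) 9 (fun _ => 2 ^ 40 - 2 ^ 23) := by decide +kernel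
theorem BI_eq : BI = 2 ^ 1152 := by decide +kernel

theorem fB_z (T : ℕ) : ((fB (mkUt T) : ℕ) : ℤ) =
    pz BB 9 (fun k => (fun _ => 2 ^ 40 : ℕ → ℤ) k + fz T k) := by
  have e : fB (mkUt T) = pku (mkUt T) + CB := rfl
  have e1 : ((CB : ℕ) : ℤ) = pz BB 9 (fun _ => 2 ^ 40 - 2 ^ 23) := by
    rw [CB_eq, pk_cast]
    exact pz_congr _ _ _ _ fun _ _ => by norm_num
  rw [e, Nat.cast_add, pku_z, e1, pz_add]
  refine pz_congr _ _ _ _ fun k _ => ?_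
  unfold fz
  ring

/-! ### a control -/

theorem rep_BI : Pool.Agent.Helper17.PAK.Rep M2 BI 0 := by
  unfold Pool.Agent.Helper17.PAK.Rep Int.ModEq
  decide +kernel

theorem bz_le {z : Z} (h : bz z = true) : |zv z| ≤ 2 ^ 200 :=
  zv_abs (Nat.le_of_ble_eq_true h)

theorem rz_ok {z : Z} (h : |zv z| ≤ 2 ^ 256) :
    Pool.Agent.Helper17.PAK.Rep M2 (rz z) (zv z) ∧ 2 ^ 1151 ≤ rz z := by
  have hb : (2 : ℕ) ^ 1151 + 2 ^ 256 ≤ BI := by decide +kernel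
  cases z with
  | p n =>
    refine ⟨?_, ?_⟩
    · have h1 := rep_BI.add (Pool.Agent.Helper17.PAK.Rep.nat M2 n)
      rw [zero_add] at h1
      exact h1
    · show 2 ^ 1151 ≤ BI + n
      omega
  | m n =>
    have h0 : (n : ℤ) ≤ 2 ^ 256 := by
      have h2 := (abs_le.1 h).1
      have h3 : zv (Z.m n) = -(n : ℤ) := rfl
      rw [h3] at h2
      linarith
    have h1 : n ≤ 2 ^ 256 := by exact_mod_cast h0
    refine ⟨?_, ?_⟩
    · have h2 := rep_BI.sub (Pool.Agent.Helper17.PAK.Rep.nat M2 n) (by omega)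
      rw [zero_sub] at h2
      exact h2
    · show 2 ^ 1151 ≤ BI - n
      omega

theorem kC_ok {l : ℕ} {z : Z} (h : |zv z| ≤ 2 ^ 256) :
    Pool.Agent.Helper17.PAK.Rep M2 (kC (2 ^ 73 * l) (rz z)) (2 ^ 116 * l + zv z) ∧ 2 ^ 1151 ≤ kC (2 ^ 73 * l) (rz z) := by
  obtain ⟨h1, h2⟩ := rz_ok h
  have e : kC (2 ^ 73 * l) (rz z) = 2 ^ 116 * l + rz z := by
    show (2 ^ 73 * l) <<< 43 + rz z = _
    rw [Nat.shiftLeft_eq]
    ring
  rw [e]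
  refine ⟨?_, by omega⟩
  have h3 := (Pool.Agent.Helper17.PAK.Rep.nat M2 (2 ^ 116 * l)).add h1
  push_cast at h3
  exact h3

theorem eN_ok {l c X o k : ℕ} {g : ℕ → ℤ} {n : ℤ} (hl : l ≤ 2 ^ 20)
    (hd : ((dgt X o : ℕ) : ℤ) = 2 ^ 43 + g k) (hg : |g k| ≤ 2 ^ 42)
    (hc : Pool.Agent.Helper17.PAK.Rep M2 c (2 ^ 116 * l + n)) (hb : 2 ^ 1151 ≤ c) :
    Pool.Agent.Helper17.PAK.Rep M2 (eN (2 ^ 73 * l) c X o) (n - 2 ^ 73 * l * g k) := by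
  have h1 : dgt X o ≤ 2 ^ 44 := by
    have h2 := (abs_le.1 hg).2
    have h3 : ((dgt X o : ℕ) : ℤ) ≤ 2 ^ 44 := by rw [hd]; linarith
    exact_mod_cast h3
  have h4 : 2 ^ 73 * l * dgt X o ≤ c := by
    have h5 : 2 ^ 73 * l * dgt X o ≤ 2 ^ 73 * 2 ^ 20 * 2 ^ 44 :=
      Nat.mul_le_mul (Nat.mul_le_mul_left _ hl) h1
    have h6 : (2 : ℕ) ^ 73 * 2 ^ 20 * 2 ^ 44 ≤ 2 ^ 1151 := by decide +kernel
    omega
  have h7 := hc.sub (Pool.Agent.Helper17.PAK.Rep.nat M2 (2 ^ 73 * l * dgt X o)) h4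
  have e : (2 ^ 116 * l + n - ((2 ^ 73 * l * dgt X o : ℕ) : ℤ) : ℤ) = n - 2 ^ 73 * l * g k := by
    push_cast
    rw [hd]
    ring
  rw [e] at h7
  exact h7

/-- the nine integers -/
def nn (n : N9) (m : Z) : ℕ → ℤ
  | 0 => zv n.a - 2 ^ 51 * zv m
  | 1 => zv n.b - 2 ^ 51 * zv m
  | 2 => zv n.c + 2 ^ 51 * zv m
  | 3 => zv n.d
  | 4 => zv n.e
  | 5 => zv n.f
  | 6 => zv n.g
  | 7 => zv n.h
  | 8 => zv n.i
  | _ => 0

theorem zv_mN (m : Z) : zv (mN m) = -(2 ^ 51 * zv m) := by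
  unfold mN
  rw [zv_opp, zv_mul]
  congr 2
theorem zv_mP (m : Z) : zv (mP m) = 2 ^ 51 * zv m := by
  unfold mP
  rw [zv_mul]
  congr 1

theorem okN_ok {n : N9} (h : okN n = true) : |zv n.a| ≤ 2 ^ 200 ∧ |zv n.b| ≤ 2 ^ 200 ∧
    |zv n.c| ≤ 2 ^ 200 ∧ |zv n.d| ≤ 2 ^ 200 ∧ |zv n.e| ≤ 2 ^ 200 ∧ |zv n.f| ≤ 2 ^ 200 ∧
    |zv n.g| ≤ 2 ^ 200 ∧ |zv n.h| ≤ 2 ^ 200 ∧ |zv n.i| ≤ 2 ^ 200 := by
  obtain ⟨a, h⟩ := andB_iffM.1 h
  obtain ⟨b, h⟩ := andB_iffM.1 h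
  obtain ⟨c, h⟩ := andB_iffM.1 h
  obtain ⟨d, h⟩ := andB_iffM.1 h
  obtain ⟨e, h⟩ := andB_iffM.1 h
  obtain ⟨f, h⟩ := andB_iffM.1 h
  obtain ⟨g, h⟩ := andB_iffM.1 h
  obtain ⟨h1, i⟩ := andB_iffM.1 h
  exact ⟨bz_le a, bz_le b, bz_le c, bz_le d, bz_le e, bz_le f, bz_le g, bz_le h1, bz_le i⟩

theorem lf_ok {n : N9} {m : Z} (hn : okN n = true) (hm : bz m = true) {l : ℕ} (hl : l ≤ 2 ^ 20)
    {X : ℕ} {g : ℕ → ℤ} (hX : (X : ℤ) = pz BB 9 (fun k => 2 ^ 43 + g k))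
    (hg : ∀ k < 9, |g k| ≤ 2 ^ 42)
    (h : lf (2 ^ 73 * l) (kC (2 ^ 73 * l) (rz (Z.add n.a (mN m))))
      (kC (2 ^ 73 * l) (rz (Z.add n.b (mN m)))) (kC (2 ^ 73 * l) (rz (Z.add n.c (mP m))))
      (kC (2 ^ 73 * l) (rz n.d)) (kC (2 ^ 73 * l) (rz n.e)) (kC (2 ^ 73 * l) (rz n.f))
      (kC (2 ^ 73 * l) (rz n.g)) (kC (2 ^ 73 * l) (rz n.h)) (kC (2 ^ 73 * l) (rz n.i)) X = true)
    (v : V3) : 0 ≤ Ph9 v (fun k => nn n m k - 2 ^ 73 * l * g k) := by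
  have h0 : ∀ k < 9, 0 ≤ 2 ^ 43 + g k := fun k hk => by
    have := (abs_le.1 (hg k hk)).1
    linarith
  have hb : ∀ k < 9, (2 ^ 43 + g k).toNat < 2 ^ 128 := fun k hk => by
    have h1 := (abs_le.1 (hg k hk)).2
    have h2 : ((2 ^ 43 + g k).toNat : ℤ) = 2 ^ 43 + g k := Int.toNat_of_nonneg (h0 k hk)
    have h3 : ((2 ^ 43 + g k).toNat : ℤ) < 2 ^ 128 := by rw [h2]; linarith
    exact_mod_cast h3
  have hd : ∀ k < 9, ∀ o, o = 128 * k → ((dgt X o : ℕ) : ℤ) = 2 ^ 43 + g k := by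
    intro k hk o ho
    rw [dgt_eq hb hk (toNat_pk hX h0) ho]
    exact Int.toNat_of_nonneg (h0 k hk)
  obtain ⟨na, nb, nc, nd, ne, nf, ng, nh, ni⟩ := okN_ok hn
  have hz := bz_le hm
  have b1 : ∀ {x : ℤ}, |x| ≤ 2 ^ 200 → |x| ≤ 2 ^ 256 := fun hx => hx.trans (by norm_num)
  have b2 : ∀ {x : ℤ}, |x| ≤ 2 ^ 200 → |x - 2 ^ 51 * zv m| ≤ 2 ^ 252 := by
    intro x hx
    have k1 := abs_le.1 hx
    have k2 := abs_le.1 hz
    rw [abs_le]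
    constructor <;> linarith
  have b3 : ∀ {x : ℤ}, |x| ≤ 2 ^ 200 → |x + 2 ^ 51 * zv m| ≤ 2 ^ 252 := by
    intro x hx
    have k1 := abs_le.1 hx
    have k2 := abs_le.1 hz
    rw [abs_le]
    constructor <;> linarith
  have r : ∀ (z : Z) (x : ℤ), zv z = x → |x| ≤ 2 ^ 252 → ∀ k < 9, ∀ o, o = 128 * k →
      Pool.Agent.Helper17.PAK.Rep M2 (eN (2 ^ 73 * l) (kC (2 ^ 73 * l) (rz z)) X o) (x - 2 ^ 73 * l * g k) := by
    intro z x hzx hx k hk o ho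
    have hx' : |zv z| ≤ 2 ^ 256 := by rw [hzx]; exact hx.trans (by norm_num)
    obtain ⟨k1, k2⟩ := kC_ok (l := l) hx'
    rw [hzx] at k1
    exact eN_ok hl (hd k hk o ho) (hg k hk) k1 k2
  have b4 : ∀ {x : ℤ}, |x| ≤ 2 ^ 200 → |x| ≤ 2 ^ 252 := fun hx => hx.trans (by norm_num)
  have ea : zv (Z.add n.a (mN m)) = zv n.a - 2 ^ 51 * zv m := by rw [zv_add, zv_mN]; ring
  have eb : zv (Z.add n.b (mN m)) = zv n.b - 2 ^ 51 * zv m := by rw [zv_add, zv_mN]; ring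
  have ec : zv (Z.add n.c (mP m)) = zv n.c + 2 ^ 51 * zv m := by rw [zv_add, zv_mP]
  have hlg : ∀ k < 9, |(2 ^ 73 * l * g k : ℤ)| ≤ 2 ^ 135 := by
    intro k hk
    rw [abs_mul, abs_of_nonneg (by positivity : (0 : ℤ) ≤ 2 ^ 73 * l)]
    have h1 : (l : ℤ) ≤ 2 ^ 20 := by exact_mod_cast hl
    calc (2 ^ 73 * l * |g k| : ℤ) ≤ 2 ^ 73 * 2 ^ 20 * 2 ^ 42 :=
          mul_le_mul (mul_le_mul_of_nonneg_left h1 (by norm_num)) (hg k hk) (abs_nonneg _)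
            (by norm_num)
      _ = 2 ^ 135 := by norm_num
  have bd : ∀ {x : ℤ} {k : ℕ}, k < 9 → |x| ≤ 2 ^ 252 → |x - 2 ^ 73 * l * g k| ≤ 2 ^ 256 := by
    intro x k hk hx
    have k1 := abs_le.1 hx
    have k2 := abs_le.1 (hlg k hk)
    rw [abs_le]
    constructor <;> linarith
  have h1 := Pool.Agent.Helper17.PAK.psd1_sound
    (N := ⟨zv n.a - 2 ^ 51 * zv m - 2 ^ 73 * l * g 0, zv n.b - 2 ^ 51 * zv m - 2 ^ 73 * l * g 1,
      zv n.c + 2 ^ 51 * zv m - 2 ^ 73 * l * g 2, zv n.d - 2 ^ 73 * l * g 3,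
      zv n.e - 2 ^ 73 * l * g 4, zv n.f - 2 ^ 73 * l * g 5, zv n.g - 2 ^ 73 * l * g 6,
      zv n.h - 2 ^ 73 * l * g 7, zv n.i - 2 ^ 73 * l * g 8⟩)
    (r _ _ ea (b2 na) 0 (by norm_num) 0 rfl) (r _ _ eb (b2 nb) 1 (by norm_num) 128 rfl)
    (r _ _ ec (b3 nc) 2 (by norm_num) 256 rfl) (r _ _ rfl (b4 nd) 3 (by norm_num) 384 rfl)
    (r _ _ rfl (b4 ne) 4 (by norm_num) 512 rfl) (r _ _ rfl (b4 nf) 5 (by norm_num) 640 rfl)
    (r _ _ rfl (b4 ng) 6 (by norm_num) 768 rfl) (r _ _ rfl (b4 nh) 7 (by norm_num) 896 rfl)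
    (r _ _ rfl (b4 ni) 8 (by norm_num) 1024 rfl) ?_ h
  · have h2 := Pool.Agent.Helper17.PAK.PDz_ev h1 v
    have e := hr_hM ((zv n.a - 2 ^ 51 * zv m - 2 ^ 73 * l * g 0 : ℤ) : ℝ)
      ((zv n.b - 2 ^ 51 * zv m - 2 ^ 73 * l * g 1 : ℤ) : ℝ)
      ((zv n.c + 2 ^ 51 * zv m - 2 ^ 73 * l * g 2 : ℤ) : ℝ)
      ((zv n.d - 2 ^ 73 * l * g 3 : ℤ) : ℝ) ((zv n.e - 2 ^ 73 * l * g 4 : ℤ) : ℝ)
      ((zv n.f - 2 ^ 73 * l * g 5 : ℤ) : ℝ) ((zv n.g - 2 ^ 73 * l * g 6 : ℤ) : ℝ)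
      ((zv n.h - 2 ^ 73 * l * g 7 : ℤ) : ℝ) ((zv n.i - 2 ^ 73 * l * g 8 : ℤ) : ℝ) v
    simp only [sc, div_one] at h2
    rw [← e] at h2
    rw [Ph9_hM]
    exact h2
  · exact ⟨bd (by norm_num) (b2 na), bd (by norm_num) (b2 nb), bd (by norm_num) (b3 nc),
      bd (by norm_num) (b4 nd), bd (by norm_num) (b4 ne), bd (by norm_num) (b4 nf),
      bd (by norm_num) (b4 ng), bd (by norm_num) (b4 nh), bd (by norm_num) (b4 ni)⟩

/-- the value of the interpolated form -/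
theorem dK_val {n : N9} {l : ℕ} {m : Z} {K : Kf} (h : dK n l m K = true) {t : ℕ → ℝ}
    (hP : PT 3 t) (v : V3) : 2 ^ 99 * l * hr (KfM K t) v ≤ Ph9 v (nn n m) := by
  obtain ⟨a1, h⟩ := andB_iffM.1 h
  obtain ⟨hm, h⟩ := andB_iffM.1 h
  obtain ⟨hn, h⟩ := andB_iffM.1 h
  have hl : l ≤ 2 ^ 20 := Nat.le_of_ble_eq_true a1
  have eL : Nat.shiftLeft l 73 = 2 ^ 73 * l := by
    show l <<< 73 = _
    rw [Nat.shiftLeft_eq, Nat.mul_comm]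
  obtain ⟨T, hT, av⟩ := kNd_leaf fB K
  have h1 : ∀ u, (lv3 (kNd fB K) u : ℤ) =
      pz BB 9 (fun k => (fun _ => 2 ^ 40 : ℕ → ℤ) k + (fun u k => fz (T u) k : Vt 3 → ℕ → ℤ) u k) := by
    intro u
    rw [hT]
    exact fB_z _
  have h2 := Tl3_ok.cn _ 9 _ _ h1 (fun u k _ => by
    have := fz_abs (T u) k
    show 3 ^ 3 * |fz (T u) k| ≤ 2 ^ 40
    linarith)
  have h3 := Tl3_ok.al _ _ h
  have h4 : ∀ u : Vt 3, 0 ≤ Ph9 v (fun k => nn n m k - 2 ^ 73 * l *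
      cnI 3 (fun w => fz (T w) k) u) := by
    intro u
    have h5 := h3 u
    rw [eL] at h5
    refine lf_ok hn hm hl (X := lv3 (cB K) u) ?_ ?_ h5 v
    · rw [show cB K = Tl3.cn (kNd fB K) from rfl, h2 u]
      exact pz_congr _ _ _ _ fun k _ => by norm_num
    · intro k _
      have := cnI_leM 3 (fun w => fz (T w) k) (2 ^ 23) (fun w => fz_abs _ _) u
      linarith
  have h5 : 0 ≤ ∑ u, wtT 3 t u * (Ph9 v (nn n m) - 2 ^ 73 * l *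
      cnI 3 (fun w => Ph9 v (fz (T w))) u) := by
    refine sum_nonneg fun u _ => mul_nonneg (hP.w.nonneg u) ?_
    have e1 := cnI_map (Ph9 v) 3 (fun w => fz (T w)) u
    have e2 : cnI 3 (fun w => fz (T w)) u = fun k => cnI 3 (fun w => fz (T w) k) u := by
      funext k
      exact cnI_map (Pi.evalAddMonoidHom (fun _ : ℕ => ℤ) k) 3 (fun (w : Vt 3) => fz (T w)) u
    have e3 : Ph9 v (fun k => nn n m k - 2 ^ 73 * l * cnI 3 (fun w => fz (T w) k) u) =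
        Ph9 v (nn n m) - 2 ^ 73 * l * Ph9 v (fun k => cnI 3 (fun w => fz (T w) k) u) := by
      rw [Ph9_apply, Ph9_apply, Ph9_apply, mul_sum, ← sum_sub_distrib]
      refine sum_congr rfl fun k _ => ?_
      push_cast
      ring
    rw [← e1, e2, ← e3]
    exact h4 u
  have h6 : ∑ u, wtT 3 t u * (Ph9 v (nn n m) - 2 ^ 73 * l *
      cnI 3 (fun w => Ph9 v (fz (T w))) u) = Ph9 v (nn n m) * ∑ u, wtT 3 t u -
      2 ^ 73 * l * ∑ u, wtT 3 t u * cnI 3 (fun w => Ph9 v (fz (T w))) u := by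
    rw [mul_sum, mul_sum, ← sum_sub_distrib]
    exact sum_congr rfl fun u _ => by ring
  rw [h6, hP.w.sum, mul_one, cn_avgR] at h5
  have e4 : ∑ u, ndw 3 t u * Ph9 v (fz (T u)) = 2 ^ 23 * hr (KfM K t) v := by
    rw [hr_avg (av t) v, mul_sum]
    refine sum_congr rfl fun u _ => ?_
    rw [← tab_Ph9]
    ring
  rw [e4] at h5
  have e5 : (2 : ℝ) ^ 73 * l * (2 ^ 3 * (2 ^ 23 * hr (KfM K t) v)) =
      2 ^ 99 * l * hr (KfM K t) v := by ring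
  rw [e5] at h5
  linarith

/-! ### the vectors -/

theorem zv_re2 (x y x' y' : Z) : zv (re2 x y x' y') = 2 ^ 19 * (zv x * zv x' + zv y * zv y') := by
  unfold re2
  rw [zv_mul, zv_add, zv_mul, zv_mul]
  congr 1
theorem zv_im2 (x y x' y' : Z) : zv (im2 x y x' y') = 2 ^ 19 * (zv y * zv x' - zv x * zv y') := by
  unfold im2
  rw [zv_mul, zv_sub, zv_mul, zv_mul]
  congr 1
theorem zv_dg2 (x y : Z) : zv (dg2 x y) = 2 ^ 19 * (zv x * zv x + zv y * zv y) - 2 ^ 75 := by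
  unfold dg2
  rw [zv_sub, zv_re2]
  congr 1

theorem nU_val (U : C3) (m : Z) (v : V3) : Ph9 v (nn (nU U) m) =
    2 ^ 115 * ‖brJ 1 (uv U) v‖ ^ 2 - 2 ^ 75 * nq v - 2 ^ 51 * zv m * hr J1 v := by
  have eU : ‖brJ 1 (uv U) v‖ ^ 2 = Complex.normSq (cz U.a * star (v 0) + cz U.b * star (v 1) -
      cz U.c * star (v 2)) / 2 ^ 96 := by
    have e : brJ 1 (uv U) v = (cz U.a * star (v 0) + cz U.b * star (v 1) -
        cz U.c * star (v 2)) / ((2 ^ 48 : ℝ) : ℂ) := by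
      have e0 : ∀ i, uv U i = cz (U.get i) / ((2 ^ 48 : ℝ) : ℂ) := by
        intro i
        unfold uv UU
        norm_num
      unfold brJ
      rw [e0 0, e0 1, e0 2]
      show cz U.a / _ * star (v 0) + cz U.b / _ * star (v 1) -
        ((1 : ℝ) : ℂ) * (cz U.c / _ * star (v 2)) = _
      rw [Complex.ofReal_one, one_mul]
      ring
    rw [e, ← Complex.normSq_eq_norm_sq, Complex.normSq_div, Complex.normSq_ofReal]
    norm_num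
  have hq : nq v = Complex.normSq (v 0) + Complex.normSq (v 1) + Complex.normSq (v 2) := by
    unfold nq
    rw [Complex.normSq_eq_norm_sq, Complex.normSq_eq_norm_sq, Complex.normSq_eq_norm_sq]
  rw [Ph9_hM, eU, hq]
  have eJ : hr J1 v = Complex.normSq (v 0) + Complex.normSq (v 1) - Complex.normSq (v 2) := by
    rw [J1_hM, hr_hM]
    unfold Pool.Agent.Helper86.CX.ev
    simp
    ring
  rw [eJ, hr_hM]
  show Pool.Agent.Helper86.CX.ev ⟨((zv (dg2 U.a.re U.a.im) - 2 ^ 51 * zv m : ℤ) : ℝ),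
    ((zv (dg2 U.b.re U.b.im) - 2 ^ 51 * zv m : ℤ) : ℝ),
    ((zv (dg2 U.c.re U.c.im) + 2 ^ 51 * zv m : ℤ) : ℝ),
    ((zv (re2 U.a.re U.a.im U.b.re U.b.im) : ℤ) : ℝ),
    ((zv (im2 U.a.re U.a.im U.b.re U.b.im) : ℤ) : ℝ),
    ((zv (Z.opp (re2 U.a.re U.a.im U.c.re U.c.im)) : ℤ) : ℝ),
    ((zv (Z.opp (im2 U.a.re U.a.im U.c.re U.c.im)) : ℤ) : ℝ),
    ((zv (Z.opp (re2 U.b.re U.b.im U.c.re U.c.im)) : ℤ) : ℝ),
    ((zv (Z.opp (im2 U.b.re U.b.im U.c.re U.c.im)) : ℤ) : ℝ)⟩ v = _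
  simp only [zv_dg2, zv_opp, zv_re2, zv_im2]
  unfold Pool.Agent.Helper86.CX.ev cz
  simp only [Complex.normSq_apply, Complex.add_re, Complex.sub_re, Complex.mul_re, Complex.add_im,
    Complex.sub_im, Complex.mul_im, Complex.ofReal_re, Complex.ofReal_im, Complex.I_re,
    Complex.I_im, Complex.conj_re, Complex.conj_im]
  have hs : ∀ z : ℂ, star z = (starRingEnd ℂ) z := fun _ => rfl
  simp only [hs, Complex.conj_re, Complex.conj_im]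
  push_cast
  ring

theorem nq_geS (y : V3) : ‖y‖ ^ 2 ≤ nq y := by
  have h : ‖y‖ ≤ Real.sqrt (nq y) := by
    rw [pi_norm_le_iff_of_nonneg (Real.sqrt_nonneg _)]
    intro i
    apply Real.le_sqrt_of_sq_le
    unfold nq
    have h0 := sq_nonneg ‖y 0‖
    have h1 := sq_nonneg ‖y 1‖
    have h2 := sq_nonneg ‖y 2‖
    fin_cases i
    · show ‖y 0‖ ^ 2 ≤ _
      linarith
    · show ‖y 1‖ ^ 2 ≤ _
      linarith
    · show ‖y 2‖ ^ 2 ≤ _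
      linarith
  have h3 : 0 ≤ nq y := by unfold nq; positivity
  calc ‖y‖ ^ 2 ≤ Real.sqrt (nq y) ^ 2 := pow_le_pow_left₀ (norm_nonneg _) h 2
    _ = nq y := Real.sq_sqrt h3

/-- **THE PACKED TEST IS SOUND** -/
theorem dK_ok {U : C3} {l : ℕ} {m : Z} {K : Kf} (h : dK (nU U) l m K = true) {t : ℕ → ℝ}
    (hP : PT 3 t) (y : V3) (hy : y ∈ NZ (KfM K t)) : ‖y‖ ≤ 1048576 * ‖brJ 1 (uv U) y‖ := by
  have h1 := dK_val h hP y
  rw [nU_val, hy.2, mul_zero, sub_zero] at h1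
  have h2 : 0 ≤ (2 : ℝ) ^ 99 * l * hr (KfM K t) y := mul_nonneg (by positivity) hy.1
  have h3 := nq_geS y
  have h4 : ‖y‖ ^ 2 ≤ (1048576 * ‖brJ 1 (uv U) y‖) ^ 2 := by
    have e : (1048576 * ‖brJ 1 (uv U) y‖) ^ 2 = 2 ^ 40 * ‖brJ 1 (uv U) y‖ ^ 2 := by
      rw [mul_pow]
      norm_num
    rw [e]
    have h5 : (2 : ℝ) ^ 75 * nq y ≤ 2 ^ 75 * (2 ^ 40 * ‖brJ 1 (uv U) y‖ ^ 2) := by
      have e5 : (2 : ℝ) ^ 75 * (2 ^ 40 * ‖brJ 1 (uv U) y‖ ^ 2) =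
          2 ^ 115 * ‖brJ 1 (uv U) y‖ ^ 2 := by ring
      rw [e5]
      linarith
    have h6 := le_of_mul_le_mul_left h5 (by positivity)
    linarith
  exact le_of_sq_le_sq h4 (by positivity)

end Pool.Agent.Helper56.SE
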