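import Pool.Agent.Helper38.FI.FIK
import Pool.Agent.Helper51.TM.M7S

/-!
MP_c75db0, plan W: the domination tests of the start (`do4`, `doL`) with packed numbers, kernel side
(`helper56`; the same inequality and the same data as in `Helper51/TM/M7S`, the packing is that of
`Helper38/FI`). `2 ^ 19 |y^* J U|^2 - 2 ^ 75 |y|^2 - 2 ^ 51 m J - 2 ^ 99 l K` (times `2 ^ 96` in the
first term) is positive definite at the `27` controls.
-/

set_option autoImplicit false
noncomputable section
namespace Pool.Agent.Helper56.SE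

open Pool.Agent.Helper17.N9 (Kf Ut mkUt kNd dgt Tl3 Tr)
open Pool.Agent.Helper86.C75 (Z)
open Pool.Agent.Helper86.CX (andB psd1)
open Pool.Agent.Helper38.FI (pku aZ)
open Pool.Agent.Helper62.TVM (C3)
open Pool.Agent.Helper21.SW (M4 SE)
open Pool.Agent.Helper91.TMK.SW (Cel)

/-- `2 ^ 40 - 2 ^ 23` in nine digits -/
def CB : Nat := (nat_lit 197656942481119260624646526499056893232244264770450504099480955585027667016116775455446442013867227774148479676133621051361184640065810207724127001560735723653305006022379745713946182447877233876533414458255977459017932802315404088971318500254794978907334645255274633476547758856749548642764482245966963961913830803505152)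
/-- `2 ^ 1152` -/
def BI : Nat := (nat_lit 61172327492847069472032393719205726809135813743440799050195397570919697796091958321786863938157971792315844506873509046544459008355036150650333616890210625686064472971480622053109783197015954399612052812141827922088117778074833698589048132156300022844899841969874763871624802603515651998113045708569927237462546233168834543264678118409417047146496)

/-- the fields with the offset `2 ^ 40` -/
def fB (u : Ut) : Nat := Nat.add (pku u) CB
/-- the controls of a form -/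
def cB (K : Kf) : Tr (Tr (Tr Nat)) := Tl3.cn (kNd fB K)

/-- nine entries -/
structure N9 where
  a : Z
  b : Z
  c : Z
  d : Z
  e : Z
  f : Z
  g : Z
  h : Z
  i : Z

/-- `2 ^ 19 (x x' + y y')`, `2 ^ 19 (y x' - x y')`, `2 ^ 19 (x x + y y) - 2 ^ 75` -/
def re2 (x y x' y' : Z) : Z :=
  Z.mul (Z.p (nat_lit 524288)) (Z.add (Z.mul x x') (Z.mul y y'))
def im2 (x y x' y' : Z) : Z :=
  Z.mul (Z.p (nat_lit 524288)) (Z.sub (Z.mul y x') (Z.mul x y'))
def dg2 (x y : Z) : Z := Z.sub (re2 x y x y) (Z.p (nat_lit 37778931862957161709568))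
/-- entries of `2 ^ 19 e e^* - 2 ^ 75`, `e = (l0, l1, - l2)` -/
def nU (U : C3) : N9 :=
  ⟨dg2 U.a.re U.a.im, dg2 U.b.re U.b.im, dg2 U.c.re U.c.im,
    re2 U.a.re U.a.im U.b.re U.b.im, im2 U.a.re U.a.im U.b.re U.b.im,
    Z.opp (re2 U.a.re U.a.im U.c.re U.c.im), Z.opp (im2 U.a.re U.a.im U.c.re U.c.im),
    Z.opp (re2 U.b.re U.b.im U.c.re U.c.im), Z.opp (im2 U.b.re U.b.im U.c.re U.c.im)⟩

def bz (z : Z) : Bool :=
  Nat.ble (aZ z) (nat_lit 1606938044258990275541962092341162602522202993782792835301376)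
def okN (n : N9) : Bool :=
  andB (bz n.a) (andB (bz n.b) (andB (bz n.c) (andB (bz n.d) (andB (bz n.e) (andB (bz n.f)
    (andB (bz n.g) (andB (bz n.h) (bz n.i))))))))

/-- `z` modulo `2 ^ 1152` -/
def rz (z : Z) : Nat := Z.rec (motive := fun _ => Nat) (Nat.add BI) (Nat.sub BI) z
/-- `- 2 ^ 51 m`, `2 ^ 51 m` -/
def mN (m : Z) : Z := Z.opp (Z.mul (Z.p (nat_lit 2251799813685248)) m)
def mP (m : Z) : Z := Z.mul (Z.p (nat_lit 2251799813685248)) m

/-- constants of the entries -/
def kC (L z : Nat) : Nat := Nat.add (Nat.shiftLeft L (nat_lit 43)) z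

/-- an entry; `L = 2 ^ 73 l` -/
def eN (L c x o : Nat) : Nat := Nat.sub c (Nat.mul L (dgt x o))
/-- THE TEST OF A CONTROL -/
def lf (L c0 c1 c2 c3 c4 c5 c6 c7 c8 x : Nat) : Bool :=
  psd1 (eN L c0 x (nat_lit 0)) (eN L c1 x (nat_lit 128)) (eN L c2 x (nat_lit 256))
    (eN L c3 x (nat_lit 384)) (eN L c4 x (nat_lit 512)) (eN L c5 x (nat_lit 640))
    (eN L c6 x (nat_lit 768)) (eN L c7 x (nat_lit 896)) (eN L c8 x (nat_lit 1024))
def lfL (n : N9) (m : Z) (K : Kf) (L : Nat) : Bool :=
  Tl3.al (lf L (kC L (rz (Z.add n.a (mN m)))) (kC L (rz (Z.add n.b (mN m))))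
    (kC L (rz (Z.add n.c (mP m)))) (kC L (rz n.d)) (kC L (rz n.e)) (kC L (rz n.f))
    (kC L (rz n.g)) (kC L (rz n.h)) (kC L (rz n.i))) (cB K)
/-- `|y|^2 / 2 ^ 24 + m J / 2 ^ 48 + l K <= 2 ^ 16 |y^* J U|^2` -/
def dK (n : N9) (l : Nat) (m : Z) (K : Kf) : Bool :=
  andB (Nat.ble l (nat_lit 1048576)) (andB (bz m) (andB (okN n)
    (lfL n m K (Nat.shiftLeft l (nat_lit 73)))))
def d4 (E : SE) (m : M4) (K : Kf) : Bool :=
  andB (dK (nU E.U0) m.a.l m.a.m K) (andB (dK (nU E.U1) m.b.l m.b.m K)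
    (andB (dK (nU E.U2) m.c.l m.c.m K) (dK (nU E.y) m.d.l m.d.m K)))
def dL (C : Cel Kf) (E : SE) (l : List (Nat × M4)) : Bool :=
  List.rec (motive := fun _ => Bool) true (fun e _ b => andB (d4 E e.2 (C.fo e.1)) b) l

end Pool.Agent.Helper56.SE
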